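import Pool.Agent.helper88.RL.SpecW
import Pool.Agent.helper10.T6.WEP

set_option autoImplicit false

/-!
# Project RL, row VEP: Euler products (port of helper10/T6/WEP.lean with 3 instead of 2)
-/

namespace Pool.Agent.RL

open Finset Pool.Agent.helper3.FT Pool.Agent.T6 Pool.Agent.RF

theorem VEP_term1 (y₀ y e : ℕ) (hy : Squarefree y) :
    (3 : ℝ) ^ (Nat.lcm y (rr y₀ e)).primeFactors.card / (Nat.lcm y (rr y₀ e)) ≤
      3 ^ y.primeFactors.card / y * ∏ p ∈ e.primeFactors, (if p ≤ y₀ ∨ p ∣ y then (1 : ℝ) else 3 / p) := by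
  set Q := e.primeFactors.filter (fun p => y₀ < p ∧ ¬ p ∣ y) with hQ
  have hy0 : 0 < y := Nat.pos_of_ne_zero hy.ne_zero
  have h1 : ∏ p ∈ e.primeFactors, (if p ≤ y₀ ∨ p ∣ y then (1 : ℝ) else 3 / p) =
      3 ^ Q.card / ((∏ p ∈ Q, p : ℕ) : ℝ) := by
    have h2 : ∏ p ∈ e.primeFactors, (if p ≤ y₀ ∨ p ∣ y then (1 : ℝ) else 3 / p) =
        ∏ p ∈ Q, ((3 : ℝ) / p) := by
      rw [hQ, Finset.prod_filter]
      apply Finset.prod_congr rfl
      intro p _
      by_cases h3 : p ≤ y₀ ∨ p ∣ y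
      · rw [if_pos h3, if_neg]
        rintro ⟨h4, h5⟩
        rcases h3 with h3 | h3
        · omega
        · exact h5 h3
      · rw [if_neg h3, if_pos]
        push_neg at h3
        exact h3
    rw [h2, Finset.prod_div_distrib, Finset.prod_const, Nat.cast_prod]
  rw [h1]
  have hQprime : ∀ p ∈ Q, p.Prime := fun p hp => Nat.prime_of_mem_primeFactors (Finset.mem_filter.mp hp).1
  have hq0 : 0 < ∏ p ∈ Q, p := Finset.prod_pos fun p hp => (hQprime p hp).pos
  have hrr : rr y₀ e ≠ 0 := by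
    unfold rr
    exact Finset.prod_ne_zero_iff.mpr fun p hp => (Nat.prime_of_mem_primeFactors (Finset.mem_filter.mp hp).1).ne_zero
  have hl0 : 0 < Nat.lcm y (rr y₀ e) := Nat.pos_of_ne_zero (Nat.lcm_ne_zero hy.ne_zero hrr)
  have hcop : Nat.Coprime y (∏ p ∈ Q, p) := by
    apply Nat.Coprime.prod_right
    intro p hp
    exact ((hQprime p hp).coprime_iff_not_dvd.mpr (Finset.mem_filter.mp hp).2.2).symm
  have hdvd : y * (∏ p ∈ Q, p) ∣ Nat.lcm y (rr y₀ e) := by
    apply hcop.mul_dvd_of_dvd_of_dvd (Nat.dvd_lcm_left _ _)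
    refine dvd_trans ?_ (Nat.dvd_lcm_right y (rr y₀ e))
    unfold rr
    apply Finset.prod_dvd_prod_of_subset
    intro p hp
    rw [hQ, Finset.mem_filter] at hp
    exact Finset.mem_filter.mpr ⟨hp.1, hp.2.1⟩
  have hle : y * (∏ p ∈ Q, p) ≤ Nat.lcm y (rr y₀ e) := Nat.le_of_dvd hl0 hdvd
  have hcard : (Nat.lcm y (rr y₀ e)).primeFactors.card ≤ y.primeFactors.card + Q.card :=
    (Finset.card_le_card (WEP_omega y₀ y e hy)).trans (Finset.card_union_le _ _)
  have hpw : (3 : ℝ) ^ (Nat.lcm y (rr y₀ e)).primeFactors.card ≤ 3 ^ y.primeFactors.card * 3 ^ Q.card := by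
    rw [← pow_add]
    exact pow_le_pow_right₀ (by norm_num) hcard
  rw [div_mul_div_comm]
  apply div_le_div₀ (by positivity) hpw
  · have : (0 : ℝ) < (y : ℝ) * ((∏ p ∈ Q, p : ℕ) : ℝ) := by
      have a1 : (0 : ℝ) < y := by exact_mod_cast hy0
      have a2 : (0 : ℝ) < ((∏ p ∈ Q, p : ℕ) : ℝ) := by exact_mod_cast hq0
      positivity
    exact this
  · exact_mod_cast hle

theorem VEP : VEP_stmt := by
  intro y₀
  set c : ℝ := 1 / (1 - (2 : ℝ) ^ (-(1 / 5 : ℝ))) with hc
  set c' : ℝ := 1 / (1 - (2 : ℝ) ^ (-(6 / 5 : ℝ))) with hc'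
  have hc0 : 0 < c := by
    have : (2 : ℝ) ^ (-(1 / 5 : ℝ)) < 1 := Real.rpow_lt_one_of_one_lt_of_neg (by norm_num) (by norm_num)
    rw [hc]
    exact one_div_pos.mpr (by linarith)
  have hc0' : 0 < c' := by
    have : (2 : ℝ) ^ (-(6 / 5 : ℝ)) < 1 := Real.rpow_lt_one_of_one_lt_of_neg (by norm_num) (by norm_num)
    rw [hc']
    exact one_div_pos.mpr (by linarith)
  obtain ⟨Z, hZ1, hZ⟩ := WEP_prod (3 * c) (by positivity)
  obtain ⟨Z', hZ1', hZ'⟩ := WEP_prod (3 * c') (by positivity)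
  refine ⟨3 * (1 + c) ^ (y₀ + 1) * Z * Z', ?_, ?_⟩
  · have h1 : (1 : ℝ) ≤ (1 + c) ^ (y₀ + 1) := one_le_pow₀ (by linarith)
    have h2 : (1 : ℝ) ≤ Z * Z' := by nlinarith
    nlinarith
  · intro y T hy
    have hy0 : (0 : ℝ) < y := by exact_mod_cast Nat.pos_of_ne_zero hy.ne_zero
    set w := y.primeFactors.card with hw
    set X : ℝ := (1 + c) ^ (y₀ + 1) with hX
    have hX1 : 1 ≤ X := one_le_pow₀ (by linarith)
    -- the common final bound
    have hfin : ∀ A : ℝ, 0 ≤ A → A ≤ (1 + c) ^ (y₀ + w) * (Z * Z') →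
        3 ^ w * A ≤ (3 * X * Z * Z') ^ (w + 1) := by
      intro A hA0 hA
      have hZZ : 1 ≤ Z * Z' := by nlinarith
      have e1 : (3 * X * Z * Z') ^ (w + 1) = 3 ^ (w + 1) * X ^ (w + 1) * (Z * Z') ^ (w + 1) := by
        rw [← mul_pow, ← mul_pow]
        congr 1
        ring
      rw [e1]
      have e2 : (3 : ℝ) ^ w ≤ 3 ^ (w + 1) := pow_le_pow_right₀ (by norm_num) (by omega)
      have e3 : (1 + c) ^ (y₀ + w) ≤ X ^ (w + 1) := by
        rw [hX, ← pow_mul]
        apply pow_le_pow_right₀ (by linarith)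
        nlinarith [Nat.zero_le (y₀ * w)]
      have e4 : Z * Z' ≤ (Z * Z') ^ (w + 1) := le_self_pow₀ hZZ (by omega)
      calc 3 ^ w * A ≤ 3 ^ w * ((1 + c) ^ (y₀ + w) * (Z * Z')) := by gcongr
        _ ≤ 3 ^ (w + 1) * (X ^ (w + 1) * (Z * Z') ^ (w + 1)) := by gcongr
        _ = _ := by ring
    constructor
    · -- part 1
      have h1 : ∑ e ∈ Ico 1 T, (3 : ℝ) ^ (Nat.lcm y (rr y₀ e)).primeFactors.card / (Nat.lcm y (rr y₀ e)) *
          (e : ℝ) ^ (-(1 / 5 : ℝ)) ≤ ∑ e ∈ Ico 1 T, 3 ^ w / y *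
            ((∏ p ∈ e.primeFactors, (if p ≤ y₀ ∨ p ∣ y then (1 : ℝ) else 3 / p)) * (e : ℝ) ^ (-(1 / 5 : ℝ))) := by
        apply Finset.sum_le_sum
        intro e _
        rw [← mul_assoc]
        exact mul_le_mul_of_nonneg_right (VEP_term1 y₀ y e hy) (Real.rpow_nonneg (Nat.cast_nonneg _) _)
      refine h1.trans ?_
      rw [← Finset.mul_sum]
      have h2 := WEP_euler (1 / 5) (by norm_num) (fun p => if p ≤ y₀ ∨ p ∣ y then (1 : ℝ) else 3 / p)
        (fun p => by
          split_ifs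
          · norm_num
          · positivity) T
      set S := ∑ e ∈ Ico 1 T, (∏ p ∈ e.primeFactors, (if p ≤ y₀ ∨ p ∣ y then (1 : ℝ) else 3 / p)) *
        (e : ℝ) ^ (-(1 / 5 : ℝ)) with hS
      have hS0 : 0 ≤ S := by
        apply Finset.sum_nonneg
        intro e _
        apply mul_nonneg _ (Real.rpow_nonneg (Nat.cast_nonneg _) _)
        apply Finset.prod_nonneg
        intro p _
        split_ifs
        · norm_num
        · positivity
      have h3 : ∏ p ∈ T.primesBelow, (1 + (if p ≤ y₀ ∨ p ∣ y then (1 : ℝ) else 3 / p) *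
          (1 / (1 - (2 : ℝ) ^ (-(1 / 5 : ℝ)))) * (p : ℝ) ^ (-(1 / 5 : ℝ))) ≤
          ∏ p ∈ T.primesBelow, ((if p ≤ y₀ ∨ p ∣ y then (1 + c) else 1) *
            (1 + (3 * c) * (p : ℝ) ^ (-(6 / 5 : ℝ)))) := by
        apply Finset.prod_le_prod
        · intro p _
          have a1 := Real.rpow_nonneg (Nat.cast_nonneg (α := ℝ) p) (-(1 / 5 : ℝ))
          have a2 : 0 ≤ (if p ≤ y₀ ∨ p ∣ y then (1 : ℝ) else 3 / p) := by
            split_ifs
            · norm_num
            · positivity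
          rw [← hc]
          positivity
        · intro p hp
          have hpp : p.Prime := (Nat.mem_primesBelow.mp hp).2
          have hp1 : (1 : ℝ) ≤ p := by exact_mod_cast hpp.one_lt.le
          have hp0 : (0 : ℝ) < p := by linarith
          rw [← hc]
          have a1 : (p : ℝ) ^ (-(1 / 5 : ℝ)) ≤ 1 := Real.rpow_le_one_of_one_le_of_nonpos hp1 (by norm_num)
          have a3 : 0 ≤ (p : ℝ) ^ (-(6 / 5 : ℝ)) := Real.rpow_nonneg hp0.le _
          by_cases h4 : p ≤ y₀ ∨ p ∣ y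
          · rw [if_pos h4, if_pos h4]
            have a4 : 1 + 1 * c * (p : ℝ) ^ (-(1 / 5 : ℝ)) ≤ 1 + c := by nlinarith
            have a5 : (1 + c) * 1 ≤ (1 + c) * (1 + (3 * c) * (p : ℝ) ^ (-(6 / 5 : ℝ))) := by
              apply mul_le_mul_of_nonneg_left _ (by linarith)
              nlinarith
            linarith
          · rw [if_neg h4, if_neg h4]
            have a6 : (p : ℝ) ^ (-(6 / 5 : ℝ)) = (p : ℝ) ^ (-(1 / 5 : ℝ)) / p := by
              rw [← Real.rpow_sub_one hp0.ne']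
              norm_num
            rw [a6]
            apply le_of_eq
            field_simp
      have h4 : ∏ p ∈ T.primesBelow, ((if p ≤ y₀ ∨ p ∣ y then (1 + c) else 1) *
            (1 + (3 * c) * (p : ℝ) ^ (-(6 / 5 : ℝ)))) ≤ (1 + c) ^ (y₀ + w) * (Z * Z') := by
        rw [Finset.prod_mul_distrib]
        have b1 : ∏ p ∈ T.primesBelow, (if p ≤ y₀ ∨ p ∣ y then (1 + c) else (1 : ℝ)) ≤ (1 + c) ^ (y₀ + w) := by
          rw [Finset.prod_ite, Finset.prod_const, Finset.prod_const_one, mul_one]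
          apply pow_le_pow_right₀ (by linarith)
          have b2 : (T.primesBelow.filter fun p => p ≤ y₀ ∨ p ∣ y) ⊆ Finset.Icc 1 y₀ ∪ y.primeFactors := by
            intro p hp
            rw [Finset.mem_filter] at hp
            have hpp : p.Prime := (Nat.mem_primesBelow.mp hp.1).2
            rw [Finset.mem_union, Finset.mem_Icc, Nat.mem_primeFactors]
            rcases hp.2 with h5 | h5
            · exact Or.inl ⟨hpp.one_lt.le, h5⟩
            · exact Or.inr ⟨hpp, h5, hy.ne_zero⟩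
          refine (Finset.card_le_card b2).trans ((Finset.card_union_le _ _).trans ?_)
          rw [Nat.card_Icc]
          omega
        have b3 := hZ T
        have b4 : 0 ≤ ∏ p ∈ T.primesBelow, (1 + (3 * c) * (p : ℝ) ^ (-(6 / 5 : ℝ))) := by
          apply Finset.prod_nonneg
          intro p _
          have := Real.rpow_nonneg (Nat.cast_nonneg (α := ℝ) p) (-(6 / 5 : ℝ))
          positivity
        have b5 : Z ≤ Z * Z' := by nlinarith
        exact mul_le_mul b1 (b3.trans b5) b4 (by positivity)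
      have h5 := hfin S hS0 (h2.trans (h3.trans h4))
      rw [div_mul_eq_mul_div]
      exact div_le_div_of_nonneg_right h5 hy0.le
    · -- part 2
      have h1 : ∑ e ∈ Ico 1 T, (3 : ℝ) ^ (Nat.lcm y (rr y₀ e)).primeFactors.card * (e : ℝ) ^ (-(6 / 5 : ℝ)) ≤
          ∑ e ∈ Ico 1 T, 3 ^ w * ((∏ p ∈ e.primeFactors, (3 : ℝ)) * (e : ℝ) ^ (-(6 / 5 : ℝ))) := by
        apply Finset.sum_le_sum
        intro e _
        rw [← mul_assoc, Finset.prod_const, ← pow_add]
        apply mul_le_mul_of_nonneg_right _ (Real.rpow_nonneg (Nat.cast_nonneg _) _)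
        apply pow_le_pow_right₀ (by norm_num)
        refine (Finset.card_le_card (WEP_omega y₀ y e hy)).trans ((Finset.card_union_le _ _).trans ?_)
        exact Nat.add_le_add_left (Finset.card_filter_le _ _) _
      refine h1.trans ?_
      rw [← Finset.mul_sum]
      have h2 := WEP_euler (6 / 5) (by norm_num) (fun _ => (3 : ℝ)) (fun _ => by norm_num) T
      set S := ∑ e ∈ Ico 1 T, (∏ p ∈ e.primeFactors, (3 : ℝ)) * (e : ℝ) ^ (-(6 / 5 : ℝ)) with hS
      have hS0 : 0 ≤ S := by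
        apply Finset.sum_nonneg
        intro e _
        apply mul_nonneg _ (Real.rpow_nonneg (Nat.cast_nonneg _) _)
        apply Finset.prod_nonneg
        intro p _
        norm_num
      have h3 : S ≤ Z' := by
        have := hZ' T
        rw [hc'] at this
        exact h2.trans this
      apply hfin S hS0
      have h4 : (1 : ℝ) ≤ (1 + c) ^ (y₀ + w) := one_le_pow₀ (by linarith)
      have h5 : Z' ≤ Z * Z' := by nlinarith
      have h6 : 0 ≤ Z * Z' := by nlinarith
      nlinarith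

end Pool.Agent.RL
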