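import Pool.Agent.helper88.RL.SpecW
import Pool.Agent.helper51.T6.WDL

set_option autoImplicit false

/-!
# Project RL, row VKB: output 2 of block W
-/

namespace Pool.Agent.RL

open Finset Pool.Agent.helper3.FT Pool.Agent.T6 Pool.Agent.RF

theorem VKB_nrm (b : ℝ) (v : V4) : 0 ≤ nrm b v := by
  unfold nrm
  exact (abs_nonneg _).trans ((le_max_left _ _).trans (le_max_left _ _))

theorem VKB_sqrt {C x : ℝ} (hC : 0 ≤ C) (hx : 0 ≤ x) : √(C * (1 + x) ^ 3) ≤ 3 * √C * (1 + x ^ (3 / 2 : ℝ)) := by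
  have h1 : √((1 + x) ^ 3) = (1 + x) ^ (3 / 2 : ℝ) := by
    rw [Real.sqrt_eq_rpow, ← Real.rpow_natCast, ← Real.rpow_mul (by linarith)]
    norm_num
  rw [Real.sqrt_mul hC, h1]
  have h2 : (1 + x) ^ (3 / 2 : ℝ) ≤ 3 * (1 + x ^ (3 / 2 : ℝ)) := by
    have h3 : (2 : ℝ) ^ (3 / 2 : ℝ) ≤ 3 := by
      have h4 : ((2 : ℝ) ^ (3 / 2 : ℝ)) ^ 2 ≤ 3 ^ 2 := by
        rw [← Real.rpow_natCast, ← Real.rpow_mul (by norm_num)]
        norm_num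
      exact le_of_pow_le_pow_left₀ two_ne_zero (by norm_num) h4
    have hx0 : 0 ≤ x ^ (3 / 2 : ℝ) := Real.rpow_nonneg hx _
    rcases le_total x 1 with h | h
    · have h5 : (1 + x) ^ (3 / 2 : ℝ) ≤ (2 : ℝ) ^ (3 / 2 : ℝ) :=
        Real.rpow_le_rpow (by linarith) (by linarith) (by norm_num)
      linarith
    · have h5 : (1 + x) ^ (3 / 2 : ℝ) ≤ (2 * x) ^ (3 / 2 : ℝ) :=
        Real.rpow_le_rpow (by linarith) (by linarith) (by norm_num)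
      rw [Real.mul_rpow (by norm_num) hx] at h5
      have h6 : (2 : ℝ) ^ (3 / 2 : ℝ) * x ^ (3 / 2 : ℝ) ≤ 3 * x ^ (3 / 2 : ℝ) :=
        mul_le_mul_of_nonneg_right h3 hx0
      linarith
  calc √C * (1 + x) ^ (3 / 2 : ℝ) ≤ √C * (3 * (1 + x ^ (3 / 2 : ℝ))) :=
        mul_le_mul_of_nonneg_left h2 (Real.sqrt_nonneg _)
    _ = _ := by ring

theorem VKB (hVNB : VNB_stmt) (hVSM : VSM_stmt) (hVRK : VRK_stmt) (hVMU : VMU_stmt) (hN4 : N4_stmt) : VKB_stmt := by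
  intro hLFS
  obtain ⟨C1, hC1, hNB⟩ := hVNB
  obtain ⟨y₀, C2, hy₀, hC2, hSM⟩ := hVSM hLFS
  have hW1 := WDL.1
  have hS0 : 0 ≤ √C1 := Real.sqrt_nonneg _
  refine ⟨3 * √C1 * (51 + C2 ^ 2) + 1, by nlinarith [mul_nonneg hS0 (sq_nonneg C2)], ?_⟩
  intro Q B T E l R g W a hQ hB hT hE hl hgl hva hvb hR hW hdist
  have hQ0 : (0 : ℝ) < Q := by exact_mod_cast hQ
  have hB0 : (0 : ℝ) < B := by exact_mod_cast hB
  have hT0 : (0 : ℝ) < T := by exact_mod_cast hT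
  have hE0 : (0 : ℝ) < E := by exact_mod_cast hE
  have hl0 : (0 : ℝ) < l := by exact_mod_cast hl.pos
  have hR0 : 0 ≤ R := le_trans (by positivity) hR
  have hR3 : 0 ≤ R ^ (3 / 2 : ℝ) := Real.rpow_nonneg hR0 _
  have hfin0 : 0 ≤ R ^ (3 / 2 : ℝ) * ((T : ℝ) ^ (5 / 4 : ℝ) + Q * (T : ℝ) ^ (1 / 4 : ℝ) / l) := by positivity
  rcases W.eq_empty_or_nonempty with hWe | ⟨k0, hk0⟩
  · rw [hWe, sum_empty]
    positivity
  -- number of moduli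
  have hlQ : (l : ℝ) ≤ 2 * Q ∧ ¬ 5 ∣ l := by
    obtain ⟨hKG, hd, -⟩ := hW k0 hk0
    have h1 : l ∣ k0.norm.natAbs := Int.natCast_dvd.1 hd
    have h2 : 0 < k0.norm.natAbs := lt_of_le_of_lt (Nat.zero_le _) hKG.lo
    refine ⟨?_, fun h5 => ?_⟩
    · have h3 := (Nat.le_of_dvd h2 h1).trans hKG.hi
      exact_mod_cast h3
    · have h3 : 5 ∣ Nat.gcd k0.norm.natAbs 10 := Nat.dvd_gcd (h5.trans h1) (by norm_num)
      have h4 : Nat.gcd k0.norm.natAbs 10 = 1 := hKG.n10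
      rw [h4] at h3
      norm_num at h3
  have hcard : (W.card : ℝ) ≤ 51 * (Q / l) := by
    have h1 := hVMU Q l 1 0 W hQ hl.squarefree hlQ.2 le_rfl (Nat.coprime_one_left l)
      (fun k hk => ⟨(hW k hk).1, (hW k hk).2.1.mul_right _, by
        rw [Nat.cast_one]
        exact one_dvd _⟩) hdist
    rw [hl.primeFactors, card_singleton, pow_one, Nat.cast_one, one_mul] at h1
    have h2 : (1 : ℝ) ≤ 2 * (Q / l) := by
      rw [← mul_div_assoc, le_div_iff₀ hl0, one_mul]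
      exact hlQ.1
    have h3 : 15 * (Q : ℝ) / l = 15 * (Q / l) := by ring
    rw [h3] at h1
    linarith
  -- the terms
  have hterm : ∀ k ∈ W, ∀ h ∈ Ico 1 T, √((nearG B (h * E) k (a k)).card : ℝ) ≤
      3 * √C1 * (1 + R ^ (3 / 2 : ℝ) * (1 / lamb 1 (dl y₀ h (mk k)) (rk (dl y₀ h (mk k)) k)) ^ (3 / 2 : ℝ)) := by
    intro k hk h hh
    rw [mem_Ico] at hh
    obtain ⟨hKG, hd, hRM⟩ := hW k hk
    obtain ⟨hd1, hd2, hd3, -, -⟩ := hW1 y₀ h (mk k) hh.1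
    set δ := dl y₀ h (mk k) with hδ
    obtain ⟨hr1, -, -⟩ := hVRK.1 δ k hd1 hd3
    obtain ⟨⟨v, -, -, hv⟩, -⟩ := hN4 1 δ (rk δ k) le_rfl hd1
    have hlam : 0 ≤ lamb 1 δ (rk δ k) := by
      rw [← hv]
      exact VKB_nrm _ _
    have hsize : ((h * E : ℕ) : ℝ) * (l : ℝ) ^ (3 / 2 : ℝ) * B / (Q : ℝ) ^ (3 / 2 : ℝ) +
        √(l : ℝ) * (Q : ℝ) ^ (3 / 2 : ℝ) / B ≤ R := by
      refine le_trans (add_le_add_left ?_ _) hR
      refine div_le_div_of_nonneg_right ?_ (Real.rpow_nonneg hQ0.le _)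
      refine mul_le_mul_of_nonneg_right ?_ hB0.le
      refine mul_le_mul_of_nonneg_right ?_ (Real.rpow_nonneg hl0.le _)
      push_cast
      rw [mul_comm]
      refine mul_le_mul_of_nonneg_left ?_ hE0.le
      exact_mod_cast hh.2.le
    have h1 := hNB Q B l (h * E) δ (rk δ k) R k g (a k) hQ hB hl.one_lt.le (Nat.mul_pos hh.1 hE) hgl hva hvb hKG hRM hd1
      (hd2.mul_right E) hd3 hr1 hsize
    have hx : 0 ≤ R / lamb 1 δ (rk δ k) := div_nonneg hR0 hlam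
    have h2 := Real.sqrt_le_sqrt h1
    refine h2.trans ((VKB_sqrt (by linarith) hx).trans (le_of_eq ?_))
    rw [div_eq_mul_one_div R, Real.mul_rpow hR0 (by positivity)]
  have hsum : ∑ k ∈ W, NK B T E k (a k) ≤ ∑ k ∈ W, ∑ h ∈ Ico 1 T,
      3 * √C1 * (1 + R ^ (3 / 2 : ℝ) * (1 / lamb 1 (dl y₀ h (mk k)) (rk (dl y₀ h (mk k)) k)) ^ (3 / 2 : ℝ)) := by
    refine sum_le_sum fun k hk => ?_
    unfold NK
    exact sum_le_sum fun h hh => hterm k hk h hh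
  refine hsum.trans ?_
  have hSM' := hSM Q T l W hQ hT hl.squarefree (fun k hk => ⟨(hW k hk).1, (hW k hk).2.1⟩) hdist
  rw [hl.primeFactors, card_singleton] at hSM'
  have e1 : ∑ k ∈ W, ∑ h ∈ Ico 1 T,
      3 * √C1 * (1 + R ^ (3 / 2 : ℝ) * (1 / lamb 1 (dl y₀ h (mk k)) (rk (dl y₀ h (mk k)) k)) ^ (3 / 2 : ℝ)) =
      3 * √C1 * (W.card * ((T - 1 : ℕ) : ℝ)) + 3 * √C1 * R ^ (3 / 2 : ℝ) *
        ∑ k ∈ W, ∑ h ∈ Ico 1 T, (1 / lamb 1 (dl y₀ h (mk k)) (rk (dl y₀ h (mk k)) k)) ^ (3 / 2 : ℝ) := by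
    simp only [mul_add, mul_one, sum_add_distrib, mul_sum, sum_const, Nat.card_Ico, nsmul_eq_mul]
    congr 1
    · ring
    · refine sum_congr rfl fun k _ => sum_congr rfl fun h _ => ?_
      ring
  rw [e1]
  have hT1 : ((T - 1 : ℕ) : ℝ) ≤ T := by exact_mod_cast Nat.sub_le T 1
  have hC0 : 0 ≤ 3 * √C1 := by positivity
  have t1 : 3 * √C1 * (W.card * ((T - 1 : ℕ) : ℝ)) ≤ 3 * √C1 * (51 * (T * Q / l)) := by
    refine mul_le_mul_of_nonneg_left ?_ hC0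
    calc (W.card : ℝ) * ((T - 1 : ℕ) : ℝ) ≤ 51 * (Q / l) * T :=
          mul_le_mul hcard hT1 (Nat.cast_nonneg _) (by positivity)
      _ = 51 * (T * Q / l) := by ring
  have t2 : 3 * √C1 * R ^ (3 / 2 : ℝ) *
        ∑ k ∈ W, ∑ h ∈ Ico 1 T, (1 / lamb 1 (dl y₀ h (mk k)) (rk (dl y₀ h (mk k)) k)) ^ (3 / 2 : ℝ) ≤
      3 * √C1 * R ^ (3 / 2 : ℝ) * (C2 ^ (1 + 1) * ((T : ℝ) ^ (5 / 4 : ℝ) + Q * (T : ℝ) ^ (1 / 4 : ℝ) / l)) :=
    mul_le_mul_of_nonneg_left hSM' (mul_nonneg hC0 hR3)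
  have hTQ : 0 ≤ (T : ℝ) * Q / l := by positivity
  set X := (T : ℝ) * Q / l with hX
  set Y := (T : ℝ) ^ (5 / 4 : ℝ) + Q * (T : ℝ) ^ (1 / 4 : ℝ) / l with hY
  set Z := R ^ (3 / 2 : ℝ) with hZ
  have h51 : 3 * √C1 * 51 ≤ 3 * √C1 * (51 + C2 ^ 2) + 1 := by nlinarith [mul_nonneg hC0 (sq_nonneg C2)]
  have hc2 : 3 * √C1 * C2 ^ 2 ≤ 3 * √C1 * (51 + C2 ^ 2) + 1 := by nlinarith
  calc 3 * √C1 * (W.card * ((T - 1 : ℕ) : ℝ)) + 3 * √C1 * Z *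
        ∑ k ∈ W, ∑ h ∈ Ico 1 T, (1 / lamb 1 (dl y₀ h (mk k)) (rk (dl y₀ h (mk k)) k)) ^ (3 / 2 : ℝ) ≤
        3 * √C1 * (51 * X) + 3 * √C1 * Z * (C2 ^ (1 + 1) * Y) := add_le_add t1 t2
    _ = (3 * √C1 * 51) * X + (3 * √C1 * C2 ^ 2) * (Z * Y) := by ring
    _ ≤ (3 * √C1 * (51 + C2 ^ 2) + 1) * X + (3 * √C1 * (51 + C2 ^ 2) + 1) * (Z * Y) :=
        add_le_add (mul_le_mul_of_nonneg_right h51 hTQ) (mul_le_mul_of_nonneg_right hc2 hfin0)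
    _ = _ := by ring

end Pool.Agent.RL
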