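import Pool.Agent.helper88.RL.SpecL
import Pool.Agent.helper33.LT.RK

set_option autoImplicit false

/-!
# Project RL, row Z8: Lemma Z (port of helper54/T6/Z8.lean)
-/

namespace Pool.Agent.RL

open Finset Pool.Agent.helper3.FT Pool.Agent.T6 Pool.Agent.RF

/-- the content of `v` -/
def Z8_ct (v : V4) : ℕ := Nat.gcd (Nat.gcd v.1.natAbs v.2.1.natAbs) (Nat.gcd v.2.2.1.natAbs v.2.2.2.natAbs)

theorem Z8_dvd_ct {n : ℕ} {v : V4} :
    n ∣ Z8_ct v ↔ (n : ℤ) ∣ v.1 ∧ (n : ℤ) ∣ v.2.1 ∧ (n : ℤ) ∣ v.2.2.1 ∧ (n : ℤ) ∣ v.2.2.2 := by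
  unfold Z8_ct
  rw [Nat.dvd_gcd_iff, Nat.dvd_gcd_iff, Nat.dvd_gcd_iff, Int.natCast_dvd, Int.natCast_dvd, Int.natCast_dvd,
    Int.natCast_dvd]
  tauto

theorem Z8_va_smul (g : ℤ) (v : V4) : va4 (g • v) = (g : OO) * va4 v ∧ vz4 (g • v) = (g : OO) * vz4 v := by
  obtain ⟨a, a', c, x⟩ := v
  refine ⟨?_, ?_⟩
  · ext <;> simp [va4]
  · ext <;> simp [vz4]

theorem Z8_trO_mul (n : ℤ) (x : OO) : trO ((n : OO) * x) = n * trO x := by
  unfold trO
  simp
  ring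

theorem Z8_norm_mul (n : ℤ) (x : OO) : ((n : OO) * x).norm = n ^ 2 * x.norm := by
  rw [map_mul]
  congr 1
  simp [QuadraticAlgebra.norm]
  ring

theorem Z8_RV_smul (g : ℤ) (v : V4) : RV (g • v) = g ^ 6 * RV v := by
  obtain ⟨e1, e2⟩ := Z8_va_smul g v
  unfold RV R0
  rw [e1, e2, Z8_norm_mul, Z8_norm_mul]
  have e3 : ph ^ 3 * ((g : OO) * va4 v) * star ((g : OO) * vz4 v) ^ 5 =
      ((g ^ 6 : ℤ) : OO) * (ph ^ 3 * va4 v * star (vz4 v) ^ 5) := by
    rw [star_mul']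
    have e4 : star (g : OO) = (g : OO) := star_intCast g
    rw [e4]
    push_cast
    ring
  rw [e3, Z8_trO_mul]
  ring

theorem Z8_cop {r H : ℕ} (d : ℕ) (hd : d ∣ H) (h : Cop r H) : Cop (r % d) d := by
  have e : ∀ (a m : ℕ), Cop a m ↔ IsCoprime ((a : ℤ) ^ 2 + a - 1) (m : ℤ) := by
    intro a m
    unfold Cop nr
    rw [Int.isCoprime_iff_gcd_eq_one]
    unfold Nat.Coprime Int.gcd
    rw [Int.natAbs_natCast]
  rw [e] at h ⊢
  have h1 : IsCoprime ((r : ℤ) ^ 2 + r - 1) (d : ℤ) := h.of_isCoprime_of_dvd_right (by exact_mod_cast hd)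
  have h2 : ((r : ℤ)) = d * (r / d : ℕ) + (r % d : ℕ) := by exact_mod_cast (Nat.div_add_mod r d).symm
  have h3 : ((r % d : ℕ) : ℤ) ^ 2 + (r % d : ℕ) - 1 =
      ((r : ℤ) ^ 2 + r - 1) + d * (-((d : ℤ) * (r / d : ℕ) ^ 2 + 2 * (r / d : ℕ) * (r % d : ℕ) + (r / d : ℕ))) := by
    rw [h2]
    ring
  rw [h3]
  exact IsCoprime.add_mul_left_left h1 _

theorem Z8_red (hN1 : N1_stmt) (hN2 : N2_stmt) {b V : ℝ} {y w : ℕ} (hb : 1 ≤ b)
    (hV : V * b ^ 5 < 2 ^ w) {H r : ℕ} (hH1 : 2 ^ w ≤ H) (hrH : r < H) (hco : Cop r H) (hR : Rgh y H)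
    {v : V4} (hv : v ≠ 0) (hG : InG H r v) (hRV : RV v = 0) (hn : nrm b v ≤ V) :
    ∃ (g q H' r' : ℕ) (v' : V4), 1 ≤ g ∧ q < g ∧ H = g * H' ∧ r = q * H' + r' ∧ r' < H' ∧ 1 < H' ∧
      Cop r' H' ∧ Rgh y H' ∧ Pm H' v' ∧ InG H' r' v' ∧ RV v' = 0 ∧ v' ≠ 0 ∧ nrm b v' ≤ V / g ∧
      (g : ℝ) ≤ V * b ^ 5 := by
  have hb5 : 0 < b ^ 5 := by positivity
  have hH0 : 0 < H := lt_of_lt_of_le (by positivity) hH1
  set g := Nat.gcd H (Z8_ct v) with hg
  have hg0 : 0 < g := Nat.gcd_pos_of_pos_left _ hH0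
  have hgR : (0 : ℝ) < g := by exact_mod_cast hg0
  have hgH : g ∣ H := Nat.gcd_dvd_left _ _
  have hgv : g ∣ Z8_ct v := Nat.gcd_dvd_right _ _
  obtain ⟨H', hH'⟩ := hgH
  rw [Z8_dvd_ct] at hgv
  obtain ⟨⟨a, ha⟩, ⟨a', ha'⟩, ⟨c, hc⟩, ⟨x, hx⟩⟩ := hgv
  set v' : V4 := (a, a', c, x) with hv'
  have hvv : v = (g : ℤ) • v' := by
    rw [hv']
    ext
    · simpa using ha
    · simpa using ha'
    · simpa using hc
    · simpa using hx
  have hH'0 : 0 < H' := by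
    rcases Nat.eq_zero_or_pos H' with h | h
    · rw [h, mul_zero] at hH'
      omega
    · exact h
  have hv'0 : v' ≠ 0 := by
    intro h
    rw [h, smul_zero] at hvv
    exact hv hvv
  have hn1 := hN1 b hb v' v'
  have hn2 : nrm b v = g * nrm b v' := by
    rw [hvv, hn1.2.2.2.1 (g : ℤ)]
    congr 1
    rw [Int.cast_natCast, abs_of_pos hgR]
  have hn3 : 1 / b ^ 5 ≤ nrm b v' := hn1.2.2.2.2.1 hv'0
  have hn4 : nrm b v' ≤ V / g := by
    rw [le_div_iff₀ hgR]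
    linarith
  have hgV : (g : ℝ) ≤ V * b ^ 5 := by
    have h1 : 1 / b ^ 5 ≤ V / g := hn3.trans hn4
    rw [div_le_div_iff₀ hb5 hgR] at h1
    linarith
  have hH'1 : 1 < H' := by
    by_contra hcon
    have h1 : H' = 1 := by omega
    rw [h1, mul_one] at hH'
    have h2 : ((2 : ℝ)) ^ w ≤ H := by exact_mod_cast hH1
    rw [hH'] at h2
    linarith
  have hdv : H' ∣ H := ⟨g, by rw [hH', mul_comm]⟩
  refine ⟨g, r / H', H', r % H', v', hg0, ?_, hH', ?_, Nat.mod_lt _ hH'0, hH'1, ?_, ?_, ?_, ?_, ?_, hv'0, hn4, hgV⟩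
  · rw [Nat.div_lt_iff_lt_mul hH'0]
    omega
  · have := Nat.div_add_mod r H'
    rw [mul_comm] at this
    exact this.symm
  · exact Z8_cop H' hdv hco
  · intro p hp hpd
    exact hR p hp (hpd.trans hdv)
  · intro p hp hpd hpv
    have h1 : g * p ∣ H := by
      rw [hH']
      exact Nat.mul_dvd_mul_left g hpd
    have h2 : g * p ∣ Z8_ct v := by
      rw [Z8_dvd_ct]
      push_cast
      rw [ha, ha', hc, hx]
      exact ⟨mul_dvd_mul_left _ hpv.1, mul_dvd_mul_left _ hpv.2.1, mul_dvd_mul_left _ hpv.2.2.1,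
        mul_dvd_mul_left _ hpv.2.2.2⟩
    have h3 : g * p ∣ g := by
      conv_rhs => rw [hg]
      exact Nat.dvd_gcd h1 h2
    have h4 : g * p ≤ g := Nat.le_of_dvd hg0 h3
    have h5 := hp.two_le
    nlinarith
  · have h1 : InG (g * H') r ((g : ℤ) • v') := by
      rw [← hH', ← hvv]
      exact hG
    have h2 : InG H' r v' := (hN2.2.2.2.2.2.2 g H' r v' hg0).1 h1
    exact hN2.2.2.2.2.2.1 H' r (r % H') v' (Nat.mod_modEq r H').symm h2
  · have h1 := Z8_RV_smul (g : ℤ) v'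
    rw [← hvv, hRV] at h1
    have h2 : ((g : ℤ)) ^ 6 ≠ 0 := pow_ne_zero _ (by exact_mod_cast hg0.ne')
    rcases mul_eq_zero.1 h1.symm with h3 | h3
    · exact absurd h3 h2
    · exact h3

open Classical in
/-- the reduced pairs -/
noncomputable def Z8_A (b V : ℝ) (y w g : ℕ) : Finset (ℕ × ℕ) :=
  (range (2 ^ (w + 1)) ×ˢ range (2 ^ (w + 1))).filter (fun p => g * p.1 < 2 ^ (w + 1) ∧ 1 < p.1 ∧ p.2 < p.1 ∧
    Cop p.2 p.1 ∧ Rgh y p.1 ∧ ∃ v : V4, Pm p.1 v ∧ InG p.1 p.2 v ∧ RV v = 0 ∧ v ≠ 0 ∧ nrm b v ≤ V / g)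

open Classical in
theorem Z8_step1 (hN1 : N1_stmt) (hN2 : N2_stmt) {b V : ℝ} {y w : ℕ} (hb : 1 ≤ b)
    (hV : V * b ^ 5 < 2 ^ w) :
    ((PR y w).filter (fun p => ∃ v : V4, v ≠ 0 ∧ InG p.1 p.2 v ∧ RV v = 0 ∧ nrm b v ≤ V)).card ≤
      ∑ g ∈ Icc 1 ⌊V * b ^ 5⌋₊, (Z8_A b V y w g).card * g := by
  have hsub : (PR y w).filter (fun p => ∃ v : V4, v ≠ 0 ∧ InG p.1 p.2 v ∧ RV v = 0 ∧ nrm b v ≤ V) ⊆
      (Icc 1 ⌊V * b ^ 5⌋₊).biUnion (fun g => ((Z8_A b V y w g) ×ˢ range g).image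
        (fun z => (g * z.1.1, z.2 * z.1.1 + z.1.2))) := by
    intro p hp
    rw [mem_filter] at hp
    obtain ⟨hp1, v, hv, hG, hRV, hn⟩ := hp
    unfold PR at hp1
    rw [mem_filter, mem_product, mem_Ico, mem_range] at hp1
    obtain ⟨⟨⟨h1, h2⟩, h3⟩, h4, h5, h6⟩ := hp1
    obtain ⟨g, q, H', r', v', hg1, hq, hH, hr, hrH', hH'1, hco, hR, hPm, hG', hRV', hv', hn', hgV⟩ :=
      Z8_red hN1 hN2 hb hV h1 h4 h5 h6 hv hG hRV hn
    rw [mem_biUnion]
    refine ⟨g, ?_, ?_⟩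
    · rw [mem_Icc]
      exact ⟨hg1, Nat.le_floor hgV⟩
    · rw [mem_image]
      refine ⟨((H', r'), q), ?_, ?_⟩
      · rw [mem_product, mem_range]
        refine ⟨?_, hq⟩
        unfold Z8_A
        rw [mem_filter, mem_product, mem_range, mem_range]
        have h7 : H' ≤ p.1 := by
          rw [hH]
          exact Nat.le_mul_of_pos_left _ hg1
        refine ⟨⟨by simp only; omega, by simp only; omega⟩, ?_, hH'1, hrH', hco, hR, v', hPm, hG', hRV', hv', hn'⟩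
        simp only
        rw [← hH]
        exact h2
      · simp only
        rw [← hH, ← hr]
  refine (card_le_card hsub).trans (card_biUnion_le.trans (sum_le_sum fun g _ => ?_))
  refine card_image_le.trans ?_
  rw [card_product, card_range]

theorem Z8_geom {η : ℝ} (hη : 0 ≤ η) (W : ℕ) :
    ∑ k ∈ range (W + 1), (2 : ℝ) ^ ((1 + η) * k) ≤ 2 * (2 : ℝ) ^ ((1 + η) * W) := by
  induction W with
  | zero => simp
  | succ W ih =>
    rw [sum_range_succ]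
    have h1 : 2 * (2 : ℝ) ^ ((1 + η) * W) ≤ (2 : ℝ) ^ ((1 + η) * ((W + 1 : ℕ) : ℝ)) := by
      have h2 : (1 + η) * ((W + 1 : ℕ) : ℝ) = (1 + η) * W + (1 + η) := by push_cast; ring
      rw [h2, Real.rpow_add (by norm_num)]
      have h3 : (2 : ℝ) ≤ (2 : ℝ) ^ (1 + η) := by
        calc (2 : ℝ) = (2 : ℝ) ^ (1 : ℝ) := (Real.rpow_one 2).symm
          _ ≤ (2 : ℝ) ^ (1 + η) := Real.rpow_le_rpow_of_exponent_le (by norm_num) (by linarith)
      have h4 : (0 : ℝ) < (2 : ℝ) ^ ((1 + η) * W) := by positivity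
      nlinarith
    linarith


/-- `2 ^ W` for `W = log (2 ^ (w + 1) / g)` -/
theorem Z8_W {η : ℝ} (hη : 0 ≤ η) {w g : ℕ} (hg : 1 ≤ g) (hgw : g ≤ 2 ^ (w + 1)) :
    (2 : ℝ) ^ ((1 + η) * (Nat.log 2 (2 ^ (w + 1) / g) : ℕ)) ≤ (2 : ℝ) ^ (1 + η) * (2 : ℝ) ^ ((1 + η) * w) / g := by
  have hgR : (1 : ℝ) ≤ g := by exact_mod_cast hg
  have hg0 : (0 : ℝ) < g := by linarith
  set W := Nat.log 2 (2 ^ (w + 1) / g) with hW
  have h1 : 2 ^ W ≤ 2 ^ (w + 1) / g := Nat.pow_log_le_self 2 (Nat.div_pos hgw hg).ne'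
  have h2 : 2 ^ W * g ≤ 2 ^ (w + 1) := (Nat.le_div_iff_mul_le hg).1 h1
  have h3 : (2 : ℝ) ^ W * g ≤ 2 ^ (w + 1) := by exact_mod_cast h2
  have h4 : ((2 : ℝ) ^ W * g) ^ (1 + η) ≤ ((2 : ℝ) ^ (w + 1)) ^ (1 + η) :=
    Real.rpow_le_rpow (by positivity) h3 (by linarith)
  rw [Real.mul_rpow (by positivity) hg0.le] at h4
  have h5 : ((2 : ℝ) ^ W) ^ (1 + η) = (2 : ℝ) ^ ((1 + η) * W) := by
    rw [← Real.rpow_natCast, ← Real.rpow_mul (by norm_num), mul_comm]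
  have h6 : ((2 : ℝ) ^ (w + 1)) ^ (1 + η) = (2 : ℝ) ^ (1 + η) * (2 : ℝ) ^ ((1 + η) * w) := by
    rw [← Real.rpow_natCast, ← Real.rpow_mul (by norm_num), ← Real.rpow_add (by norm_num)]
    congr 1
    push_cast
    ring
  have h7 : (g : ℝ) ≤ (g : ℝ) ^ (1 + η) := by
    calc (g : ℝ) = (g : ℝ) ^ (1 : ℝ) := (Real.rpow_one _).symm
      _ ≤ (g : ℝ) ^ (1 + η) := Real.rpow_le_rpow_of_exponent_le hgR (by linarith)
  rw [h5, h6] at h4
  rw [le_div_iff₀ hg0]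
  have h8 : (0 : ℝ) < (2 : ℝ) ^ ((1 + η) * W) := by positivity
  nlinarith

open Classical in
theorem Z8_case1 {η C C2 : ℝ} (hη : 0 ≤ η) (hC : 1 ≤ C) (hC2 : 1 ≤ C2)
    (hZ2 : ∀ (b V : ℝ) (n k : ℤ) (v : V4), 1 ≤ b → IsCoprime n k → InW n k v → v ≠ 0 → nrm b v ≤ V →
      |(n : ℝ)| ^ 3 ≤ C2 * V ∧ |(k : ℝ)| ^ 3 ≤ C2 * V)
    (hZ5 : ∀ (y w : ℕ) (n k : ℤ), 5 ≤ y → IsCoprime n k →
    (((PR y w).filter (fun p => ∃ v : V4, Pm p.1 v ∧ InW n k v ∧ InG p.1 p.2 v)).card : ℝ) ≤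
      C * (2 : ℝ) ^ ((1 + η) * w))
    {b V : ℝ} {y w g : ℕ} (hb : 1 ≤ b) (hy : 5 ≤ y) (hV : V * b ^ 5 < 2 ^ w) (hg : 1 ≤ g) (hgV : (g : ℝ) ≤ V * b ^ 5) :
    (((Z8_A b V y w g).filter (fun p => ∃ v : V4, Pm p.1 v ∧ InG p.1 p.2 v ∧ v ≠ 0 ∧ nrm b v ≤ V / g ∧
      ∃ n k : ℤ, IsCoprime n k ∧ InW n k v)).card : ℝ) ≤
      18 * C2 * C * (2 : ℝ) ^ (1 + η) * (V * b ^ 5) * (2 : ℝ) ^ ((1 + η) * w) / g ^ 2 := by
  have hgR : (1 : ℝ) ≤ g := by exact_mod_cast hg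
  have hg0 : (0 : ℝ) < g := by linarith
  have hb5 : (1 : ℝ) ≤ b ^ 5 := one_le_pow₀ hb
  have hV0 : 0 < V := by
    by_contra hV0
    have h1 : V * b ^ 5 ≤ 0 := mul_nonpos_of_nonpos_of_nonneg (not_lt.1 hV0) (by linarith)
    linarith
  set M : ℝ := C2 * (V * b ^ 5) / g with hM
  have hM1 : 1 ≤ M := by
    rw [hM, le_div_iff₀ hg0, one_mul]
    exact hgV.trans (le_mul_of_one_le_left (by positivity) hC2)
  set x : ℝ := M ^ (1 / 3 : ℝ) with hx
  have hx1 : 1 ≤ x := Real.one_le_rpow hM1 (by norm_num)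
  have hx3 : x ^ 3 = M := by
    rw [hx, ← Real.rpow_natCast, ← Real.rpow_mul (by linarith)]
    norm_num
  set m := ⌊x⌋₊ with hm
  have hmx : (m : ℝ) ≤ x := Nat.floor_le (by linarith)
  set W := Nat.log 2 (2 ^ (w + 1) / g) with hW
  have hgw : g ≤ 2 ^ (w + 1) := by
    have h1 : (g : ℝ) ≤ ((2 ^ (w + 1) : ℕ) : ℝ) := by
      push_cast
      have h2 : (2 : ℝ) ^ w ≤ 2 ^ (w + 1) := pow_le_pow_right₀ (by norm_num) (by omega)
      linarith
    exact_mod_cast h1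
  set NK := ((Icc (-(m : ℤ)) m) ×ˢ (Icc (-(m : ℤ)) m)).filter (fun z => IsCoprime z.1 z.2) with hNK
  have hsub : ((Z8_A b V y w g).filter (fun p => ∃ v : V4, Pm p.1 v ∧ InG p.1 p.2 v ∧ v ≠ 0 ∧ nrm b v ≤ V / g ∧
      ∃ n k : ℤ, IsCoprime n k ∧ InW n k v)) ⊆
      NK.biUnion (fun z => (range (W + 1)).biUnion (fun u => (PR y u).filter
        (fun p => ∃ v : V4, Pm p.1 v ∧ InW z.1 z.2 v ∧ InG p.1 p.2 v))) := by
    intro p hp
    rw [mem_filter] at hp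
    obtain ⟨hpA, v, hPm, hG, hv, hn, n, k, hnk, hW1⟩ := hp
    unfold Z8_A at hpA
    rw [mem_filter] at hpA
    obtain ⟨-, hp1, hp2, hp3, hp4, hp5, -⟩ := hpA
    rw [mem_biUnion]
    refine ⟨(n, k), ?_, ?_⟩
    · have h0 := hZ2 b (V / g) n k v hb hnk hW1 hv hn
      have h2 : C2 * (V / g) ≤ x ^ 3 := by
        rw [hx3, hM, ← mul_div_assoc]
        refine div_le_div_of_nonneg_right ?_ hg0.le
        exact mul_le_mul_of_nonneg_left (le_mul_of_one_le_right hV0.le hb5) (by linarith)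
      have h1 : |(n : ℝ)| ^ 3 ≤ x ^ 3 ∧ |(k : ℝ)| ^ 3 ≤ x ^ 3 := ⟨h0.1.trans h2, h0.2.trans h2⟩
      have h3 : ∀ t : ℤ, |(t : ℝ)| ^ 3 ≤ x ^ 3 → t ∈ Icc (-(m : ℤ)) m := by
        intro t ht
        have h4 : |(t : ℝ)| ≤ x := le_of_pow_le_pow_left₀ (by norm_num) (by linarith) ht
        have h5 : t.natAbs ≤ m := by
          apply Nat.le_floor
          rw [Nat.cast_natAbs]
          push_cast
          exact h4
        rw [mem_Icc]
        omega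
      rw [hNK, mem_filter, mem_product]
      exact ⟨⟨h3 n h1.1, h3 k h1.2⟩, hnk⟩
    · rw [mem_biUnion]
      have hp0 : p.1 ≠ 0 := by omega
      refine ⟨Nat.log 2 p.1, ?_, ?_⟩
      · rw [mem_range, Nat.lt_succ_iff]
        apply Nat.log_mono_right
        rw [Nat.le_div_iff_mul_le hg, mul_comm]
        exact hp1.le
      · rw [mem_filter]
        refine ⟨?_, v, hPm, hW1, hG⟩
        unfold PR
        rw [mem_filter, mem_product, mem_Ico, mem_range]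
        have h6 := Nat.pow_log_le_self 2 hp0
        have h7 := Nat.lt_pow_succ_log_self (b := 2) (by norm_num) p.1
        exact ⟨⟨⟨h6, h7⟩, by omega⟩, hp3, hp4, hp5⟩
  have hcard : (((Z8_A b V y w g).filter (fun p => ∃ v : V4, Pm p.1 v ∧ InG p.1 p.2 v ∧ v ≠ 0 ∧ nrm b v ≤ V / g ∧
      ∃ n k : ℤ, IsCoprime n k ∧ InW n k v)).card : ℝ) ≤
      NK.card * (C * (2 * (2 : ℝ) ^ ((1 + η) * W))) := by
    have h1 := (card_le_card hsub).trans card_biUnion_le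
    have h2 : ((∑ z ∈ NK, ((range (W + 1)).biUnion (fun u => (PR y u).filter
        (fun p => ∃ v : V4, Pm p.1 v ∧ InW z.1 z.2 v ∧ InG p.1 p.2 v))).card : ℕ) : ℝ) ≤
        ∑ z ∈ NK, (C * (2 * (2 : ℝ) ^ ((1 + η) * W))) := by
      push_cast
      apply sum_le_sum
      intro z hz
      rw [hNK, mem_filter] at hz
      have h3 : (((range (W + 1)).biUnion (fun u => (PR y u).filter
        (fun p => ∃ v : V4, Pm p.1 v ∧ InW z.1 z.2 v ∧ InG p.1 p.2 v))).card : ℝ) ≤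
          ((∑ u ∈ range (W + 1), ((PR y u).filter
        (fun p => ∃ v : V4, Pm p.1 v ∧ InW z.1 z.2 v ∧ InG p.1 p.2 v)).card : ℕ) : ℝ) := by
        exact_mod_cast card_biUnion_le
      refine h3.trans ?_
      push_cast
      calc _ ≤ ∑ u ∈ range (W + 1), C * (2 : ℝ) ^ ((1 + η) * u) :=
            sum_le_sum fun u _ => hZ5 y u z.1 z.2 hy hz.2
        _ = C * ∑ u ∈ range (W + 1), (2 : ℝ) ^ ((1 + η) * u) := by rw [mul_sum]
        _ ≤ _ := by
            have := Z8_geom hη W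
            exact mul_le_mul_of_nonneg_left this (by linarith)
    rw [sum_const, nsmul_eq_mul] at h2
    have h4 : (((Z8_A b V y w g).filter (fun p => ∃ v : V4, Pm p.1 v ∧ InG p.1 p.2 v ∧ v ≠ 0 ∧ nrm b v ≤ V / g ∧
      ∃ n k : ℤ, IsCoprime n k ∧ InW n k v)).card : ℝ) ≤
      ((∑ z ∈ NK, ((range (W + 1)).biUnion (fun u => (PR y u).filter
        (fun p => ∃ v : V4, Pm p.1 v ∧ InW z.1 z.2 v ∧ InG p.1 p.2 v))).card : ℕ) : ℝ) := by exact_mod_cast h1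
    exact h4.trans h2
  refine hcard.trans ?_
  have hNKc : (NK.card : ℝ) ≤ 9 * M := by
    have h1 : NK.card ≤ (2 * m + 1) * (2 * m + 1) := by
      refine (card_filter_le _ _).trans ?_
      rw [card_product, Int.card_Icc]
      apply le_of_eq
      congr 1 <;> omega
    have h2 : (NK.card : ℝ) ≤ (2 * m + 1) * (2 * m + 1) := by exact_mod_cast h1
    have h3 : (2 * (m : ℝ) + 1) ≤ 3 * x := by linarith
    have h4 : (2 * (m : ℝ) + 1) * (2 * m + 1) ≤ 3 * x * (3 * x) := by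
      have h5 : (0 : ℝ) ≤ m := Nat.cast_nonneg m
      exact mul_le_mul h3 h3 (by linarith) (by linarith)
    have h5 : x * x ≤ x ^ 3 := by nlinarith [mul_nonneg (mul_nonneg (by linarith : (0:ℝ) ≤ x) (by linarith : (0:ℝ) ≤ x)) (by linarith : (0:ℝ) ≤ x - 1)]
    rw [← hx3]
    nlinarith
  have hWb := Z8_W hη (w := w) hg hgw
  rw [← hW] at hWb
  have hP : (0 : ℝ) < (2 : ℝ) ^ ((1 + η) * W) := by positivity
  calc (NK.card : ℝ) * (C * (2 * (2 : ℝ) ^ ((1 + η) * W)))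
      ≤ 9 * M * (C * (2 * ((2 : ℝ) ^ (1 + η) * (2 : ℝ) ^ ((1 + η) * w) / g))) := by
        apply mul_le_mul hNKc _ (by positivity) (by linarith)
        apply mul_le_mul_of_nonneg_left _ (by linarith)
        linarith
    _ = 18 * C2 * C * (2 : ℝ) ^ (1 + η) * (V * b ^ 5) * (2 : ℝ) ^ ((1 + η) * w) / g ^ 2 := by
        rw [hM]
        field_simp
        ring


/-- the special vectors -/
def Z8_sp (v : V4) : Prop :=
  vz4 v ≠ 0 ∧ 5 * va4 v * star (vz4 v) ^ 2 = -(star ph ^ 3 * vz4 v ^ 3)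

open Classical in
theorem Z8_case2 (hNRT : NRT_stmt) {η C7 C3 : ℝ} (hη : 0 < η) (hC7 : 1 ≤ C7) (hC3 : 1 ≤ C3)
    (hZ7 : ∀ (b V : ℝ) (F : Finset V4), 1 ≤ b → 1 ≤ V → (∀ v ∈ F, nrm b v ≤ V ∧
    vz4 v ≠ 0 ∧ 5 * va4 v * star (vz4 v) ^ 2 = -(star ph ^ 3 * vz4 v ^ 3)) →
    (F.card : ℝ) ≤ C7 * V ^ (1 + η))
    (h3w : ∀ f : ℕ, 1 ≤ f → (3 : ℝ) ^ f.primeFactors.card ≤ C3 * (f : ℝ) ^ η)
    {b V : ℝ} {y w g : ℕ} (hb : 1 ≤ b) (hy : 5 ≤ y) (hV0 : 0 < V) (hV : V * b ^ 5 < 2 ^ w) (hg : 1 ≤ g) :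
    (((Z8_A b V y w g).filter (fun p => ∃ v : V4, Pm p.1 v ∧ InG p.1 p.2 v ∧ nrm b v ≤ V / g ∧ Z8_sp v)).card : ℝ) ≤
      C7 * C3 * (2 : ℝ) ^ (1 + η) * (V * b ^ 5) * (2 : ℝ) ^ ((1 + 2 * η) * w) / g ^ 2 := by
  have hgR : (1 : ℝ) ≤ g := by exact_mod_cast hg
  have hg0 : (0 : ℝ) < g := by linarith
  have hb0 : (0 : ℝ) < b := by linarith
  have hVg0 : 0 < V / g := by positivity
  set A2 := (Z8_A b V y w g).filter (fun p => ∃ v : V4, Pm p.1 v ∧ InG p.1 p.2 v ∧ nrm b v ≤ V / g ∧ Z8_sp v) with hA2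
  by_cases hVg : V / g < 1
  · have hE : A2 = ∅ := by
      rw [eq_empty_iff_forall_notMem]
      intro p hp
      rw [hA2, mem_filter] at hp
      obtain ⟨-, v, -, -, hn, hsp⟩ := hp
      have h1 : (1 : ℝ) ≤ nrm b v := by
        have h2 : v.2.2.1 ≠ 0 ∨ v.2.2.2 ≠ 0 := by
          by_contra hcon
          rw [not_or, not_not, not_not] at hcon
          apply hsp.1
          unfold vz4
          rw [hcon.1, hcon.2]
          rfl
        unfold nrm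
        rcases h2 with h2 | h2
        · have h3 : (1 : ℝ) ≤ |(v.2.2.1 : ℝ)| := by
            have := Int.one_le_abs h2
            exact_mod_cast this
          exact h3.trans ((le_max_left _ _).trans (le_max_right _ _))
        · have h3 : (1 : ℝ) ≤ |(v.2.2.2 : ℝ)| := by
            have := Int.one_le_abs h2
            exact_mod_cast this
          exact h3.trans ((le_max_right _ _).trans (le_max_right _ _))
      linarith
    rw [hE, card_empty, Nat.cast_zero]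
    positivity
  · rw [not_lt] at hVg
    set vf : ℕ × ℕ → V4 := fun p => if h : ∃ v : V4, Pm p.1 v ∧ InG p.1 p.2 v ∧ nrm b v ≤ V / g ∧ Z8_sp v then
      h.choose else 0 with hvf
    have hvfs : ∀ p ∈ A2, Pm p.1 (vf p) ∧ InG p.1 p.2 (vf p) ∧ nrm b (vf p) ≤ V / g ∧ Z8_sp (vf p) := by
      intro p hp
      rw [hA2, mem_filter] at hp
      have h1 := hp.2.choose_spec
      have h2 : vf p = hp.2.choose := by
        rw [hvf]
        simp only [hp.2, dif_pos]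
      rw [h2]
      exact h1
    set F := A2.image vf with hF
    have hFc : (F.card : ℝ) ≤ C7 * (V / g) ^ (1 + η) := by
      apply hZ7 b (V / g) F hb hVg
      intro v hv
      rw [hF, mem_image] at hv
      obtain ⟨p, hp, rfl⟩ := hv
      have h1 := hvfs p hp
      exact ⟨h1.2.2.1, h1.2.2.2⟩
    set D := 2 ^ (w + 1) / g with hD
    have hDR : (D : ℝ) ≤ 2 ^ (w + 1) / g := by
      rw [le_div_iff₀ hg0]
      have h1 : D * g ≤ 2 ^ (w + 1) := Nat.div_mul_le_self _ _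
      exact_mod_cast h1
    have hfib : ∀ v ∈ F, ((A2.filter (fun p => vf p = v)).card : ℝ) ≤ D * (C3 * ((2 : ℝ) ^ (w + 1)) ^ η) := by
      intro v hv
      have hsub : A2.filter (fun p => vf p = v) ⊆ ((Icc 1 D).filter (fun H => Rgh 5 H ∧ Pm H v)).biUnion
          (fun H => ((range H).filter (fun r => Cop r H ∧ InG H r v)).image (fun r => (H, r))) := by
        intro p hp
        rw [mem_filter] at hp
        have h1 := hvfs p hp.1
        rw [hp.2] at h1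
        have h2 := hp.1
        rw [hA2, mem_filter] at h2
        have h3 := h2.1
        unfold Z8_A at h3
        rw [mem_filter] at h3
        obtain ⟨-, hp1, hp2, hp3, hp4, hp5, -⟩ := h3
        rw [mem_biUnion]
        refine ⟨p.1, ?_, ?_⟩
        · rw [mem_filter, mem_Icc]
          refine ⟨⟨by omega, ?_⟩, ?_, h1.1⟩
          · rw [hD, Nat.le_div_iff_mul_le hg, mul_comm]
            exact hp1.le
          · intro q hq hqd
            exact lt_of_le_of_lt hy (hp5 q hq hqd)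
        · rw [mem_image]
          refine ⟨p.2, ?_, rfl⟩
          rw [mem_filter, mem_range]
          exact ⟨hp3, hp4, h1.2.1⟩
      have h1 : (A2.filter (fun p => vf p = v)).card ≤
          ∑ H ∈ (Icc 1 D).filter (fun H => Rgh 5 H ∧ Pm H v), 3 ^ H.primeFactors.card := by
        refine (card_le_card hsub).trans (card_biUnion_le.trans (sum_le_sum fun H hH => ?_))
        rw [mem_filter, mem_Icc] at hH
        exact card_image_le.trans (hNRT H v hH.1.1 hH.2.1 hH.2.2)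
      have h2 : ((A2.filter (fun p => vf p = v)).card : ℝ) ≤
          ∑ H ∈ (Icc 1 D).filter (fun H => Rgh 5 H ∧ Pm H v), (3 : ℝ) ^ H.primeFactors.card := by
        exact_mod_cast h1
      refine h2.trans ?_
      have h3 : ∑ H ∈ (Icc 1 D).filter (fun H => Rgh 5 H ∧ Pm H v), (3 : ℝ) ^ H.primeFactors.card ≤
          ∑ H ∈ (Icc 1 D).filter (fun H => Rgh 5 H ∧ Pm H v), C3 * ((2 : ℝ) ^ (w + 1)) ^ η := by
        apply sum_le_sum
        intro H hH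
        rw [mem_filter, mem_Icc] at hH
        refine (h3w H hH.1.1).trans ?_
        apply mul_le_mul_of_nonneg_left _ (by linarith)
        apply Real.rpow_le_rpow (by positivity) _ hη.le
        have h4 : H ≤ 2 ^ (w + 1) := hH.1.2.trans (Nat.div_le_self _ _)
        exact_mod_cast h4
      refine h3.trans ?_
      rw [sum_const, nsmul_eq_mul]
      apply mul_le_mul_of_nonneg_right _ (by positivity)
      have h5 : ((Icc 1 D).filter (fun H => Rgh 5 H ∧ Pm H v)).card ≤ D := by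
        refine (card_filter_le _ _).trans ?_
        rw [Nat.card_Icc, Nat.add_sub_cancel]
      exact_mod_cast h5
    have hsum : (A2.card : ℝ) = ∑ v ∈ F, ((A2.filter (fun p => vf p = v)).card : ℝ) := by
      have h1 := card_eq_sum_card_image vf A2
      rw [hF]
      exact_mod_cast h1
    rw [hsum]
    refine (sum_le_sum hfib).trans ?_
    rw [sum_const, nsmul_eq_mul]
    have hVV : V / g ≤ 2 ^ w := by
      have h1 : V / g ≤ V := div_le_self hV0.le hgR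
      have h2 : V ≤ V * b ^ 5 := le_mul_of_one_le_right hV0.le (one_le_pow₀ hb)
      linarith
    have h1 : (V / g) ^ (1 + η) ≤ (V / g) * (2 : ℝ) ^ (η * w) := by
      rw [Real.rpow_add hVg0, Real.rpow_one]
      apply mul_le_mul_of_nonneg_left _ hVg0.le
      have h2 : (V / g) ^ η ≤ ((2 : ℝ) ^ w) ^ η := Real.rpow_le_rpow hVg0.le hVV hη.le
      have h3 : ((2 : ℝ) ^ w) ^ η = (2 : ℝ) ^ (η * w) := by
        rw [← Real.rpow_natCast, ← Real.rpow_mul (by norm_num), mul_comm]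
      rwa [h3] at h2
    have h4 : ((2 : ℝ) ^ (w + 1)) ^ η = (2 : ℝ) ^ η * (2 : ℝ) ^ (η * w) := by
      rw [← Real.rpow_natCast, ← Real.rpow_mul (by norm_num), ← Real.rpow_add (by norm_num)]
      congr 1
      push_cast
      ring
    have h5 : (2 : ℝ) ^ ((1 + 2 * η) * w) = 2 ^ w * ((2 : ℝ) ^ (η * w) * (2 : ℝ) ^ (η * w)) := by
      rw [← Real.rpow_natCast 2 w, ← Real.rpow_add (by norm_num), ← Real.rpow_add (by norm_num)]
      congr 1
      ring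
    have h6 : (2 : ℝ) ^ (1 + η) = 2 * (2 : ℝ) ^ η := by
      rw [Real.rpow_add (by norm_num), Real.rpow_one]
    have hb5 : 1 ≤ b ^ 5 := one_le_pow₀ hb
    calc (F.card : ℝ) * (D * (C3 * ((2 : ℝ) ^ (w + 1)) ^ η))
        ≤ (C7 * ((V / g) * (2 : ℝ) ^ (η * w))) * ((2 ^ (w + 1) / g) * (C3 * ((2 : ℝ) ^ (w + 1)) ^ η)) := by
          apply mul_le_mul
          · exact hFc.trans (mul_le_mul_of_nonneg_left h1 (by linarith))
          · exact mul_le_mul_of_nonneg_right hDR (by positivity)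
          · positivity
          · positivity
      _ = C7 * C3 * (2 : ℝ) ^ (1 + η) * V * (2 : ℝ) ^ ((1 + 2 * η) * w) / g ^ 2 := by
          rw [h4, h5, h6, pow_succ]
          field_simp
      _ ≤ C7 * C3 * (2 : ℝ) ^ (1 + η) * (V * b ^ 5) * (2 : ℝ) ^ ((1 + 2 * η) * w) / g ^ 2 := by
          apply div_le_div_of_nonneg_right _ (by positivity)
          apply mul_le_mul_of_nonneg_right _ (by positivity)
          apply mul_le_mul_of_nonneg_left _ (by positivity)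
          exact le_mul_of_one_le_right hV0.le hb5

theorem Z8_harm (N : ℕ) : ∑ g ∈ Icc 1 N, (1 : ℝ) / g ≤ 1 + Real.log N := by
  have h1 := harmonic_le_one_add_log N
  rw [harmonic_eq_sum_Icc] at h1
  push_cast at h1
  simpa only [one_div] using h1

theorem Z8 (hN1 : N1_stmt) (hN2 : N2_stmt) (hNRT : NRT_stmt) (hZ2 : Z2_stmt) (hZ5 : Z5_stmt) (hZ6 : Z6_stmt)
    (hZ7 : Z7_stmt) : Z8_stmt := by
  classical
  intro ε hε
  set η : ℝ := ε / 3 with hη
  have hη0 : 0 < η := by positivity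
  obtain ⟨C2, hC2, hZ2⟩ := hZ2
  obtain ⟨C5, hC5, h5⟩ := hZ5 η hη0
  obtain ⟨C7, hC7, h7⟩ := hZ7 η hη0
  obtain ⟨C3, hC3, h3⟩ := Pool.Agent.helper28.LT.RK_pow 3 η (by norm_num) hη0
  have hl2 : 0 < Real.log 2 := Real.log_pos (by norm_num)
  have hl21 : Real.log 2 ≤ 1 := by
    have := Real.log_two_lt_d9
    linarith
  set K : ℝ := 18 * C2 * C5 * (2 : ℝ) ^ (1 + η) + C7 * C3 * (2 : ℝ) ^ (1 + η) with hK
  have hK0 : 0 < K := by positivity
  set C4 : ℝ := 1 + 1 / (η * Real.log 2) with hC4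
  have hC40 : 0 < C4 := by positivity
  refine ⟨K * C4 + 1, by nlinarith [mul_pos hK0 hC40], ?_⟩
  intro b V y w hb hy hV0 hV
  have hb0 : (0 : ℝ) < b := by linarith
  set G : ℝ := V * b ^ 5 with hG
  have hG0 : 0 < G := by positivity
  have hw4 : (1 + (w : ℝ)) ≤ C4 * (2 : ℝ) ^ (η * w) := by
    have h1 : η * w * Real.log 2 + 1 ≤ (2 : ℝ) ^ (η * w) := by
      have h2 := Real.add_one_le_exp (η * w * Real.log 2)
      rw [Real.rpow_def_of_pos (by norm_num)]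
      have h3 : Real.log 2 * (η * w) = η * w * Real.log 2 := by ring
      rw [h3]
      exact h2
    have h2 : 0 ≤ η * w * Real.log 2 := by positivity
    have h3 : 1 / (η * Real.log 2) * (η * w * Real.log 2) = w := by
      field_simp
    have h4 : 0 < 1 / (η * Real.log 2) := by positivity
    calc (1 + (w : ℝ)) = 1 * 1 + 1 / (η * Real.log 2) * (η * w * Real.log 2) := by rw [h3]; ring
      _ ≤ 1 * (2 : ℝ) ^ (η * w) + 1 / (η * Real.log 2) * (2 : ℝ) ^ (η * w) := by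
          apply add_le_add
          · linarith
          · exact mul_le_mul_of_nonneg_left (by linarith) h4.le
      _ = C4 * (2 : ℝ) ^ (η * w) := by rw [hC4]; ring
  have hAg : ∀ g ∈ Icc 1 ⌊G⌋₊, (((Z8_A b V y w g).card * g : ℕ) : ℝ) ≤
      K * G * (2 : ℝ) ^ ((1 + 2 * η) * w) * (1 / g) := by
    intro g hg
    rw [mem_Icc] at hg
    have hgG : (g : ℝ) ≤ G := (Nat.le_floor_iff hG0.le).1 hg.2
    have hgR : (1 : ℝ) ≤ g := by exact_mod_cast hg.1
    have hg0 : (0 : ℝ) < g := by linarith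
    have hc1 := Z8_case1 hη0.le hC5 hC2 hZ2 (fun y w n k => h5 y w n k) hb hy hV hg.1 hgG
    have hc2 := Z8_case2 hNRT hη0 hC7 hC3 h7 h3 hb hy hV0 hV hg.1
    have hsub : Z8_A b V y w g ⊆ ((Z8_A b V y w g).filter (fun p => ∃ v : V4, Pm p.1 v ∧ InG p.1 p.2 v ∧ v ≠ 0 ∧
        nrm b v ≤ V / g ∧ ∃ n k : ℤ, IsCoprime n k ∧ InW n k v)) ∪
        ((Z8_A b V y w g).filter (fun p => ∃ v : V4, Pm p.1 v ∧ InG p.1 p.2 v ∧ nrm b v ≤ V / g ∧ Z8_sp v)) := by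
      intro p hp
      have hp' := hp
      unfold Z8_A at hp'
      rw [mem_filter] at hp'
      obtain ⟨-, hp1, hp2, hp3, hp4, hp5, v, hPm, hGv, hRV, hv, hn⟩ := hp'
      rw [mem_union, mem_filter, mem_filter]
      have hR5 : Rgh 5 p.1 := fun q hq hqd => lt_of_le_of_lt hy (hp5 q hq hqd)
      rcases hZ6 v hv hRV with h | h
      · left
        exact ⟨hp, v, hPm, hGv, hv, hn, h⟩
      · right
        exact ⟨hp, v, hPm, hGv, hn, h⟩
    have hcard : ((Z8_A b V y w g).card : ℝ) ≤ K * G * (2 : ℝ) ^ ((1 + 2 * η) * w) / g ^ 2 := by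
      have h1 : ((Z8_A b V y w g).card : ℝ) ≤
          (((Z8_A b V y w g).filter (fun p => ∃ v : V4, Pm p.1 v ∧ InG p.1 p.2 v ∧ v ≠ 0 ∧
        nrm b v ≤ V / g ∧ ∃ n k : ℤ, IsCoprime n k ∧ InW n k v)).card : ℝ) +
          (((Z8_A b V y w g).filter (fun p => ∃ v : V4, Pm p.1 v ∧ InG p.1 p.2 v ∧ nrm b v ≤ V / g ∧
            Z8_sp v)).card : ℝ) := by
        exact_mod_cast (card_le_card hsub).trans (card_union_le _ _)
      refine h1.trans ?_
      have h2 : (2 : ℝ) ^ ((1 + η) * w) ≤ (2 : ℝ) ^ ((1 + 2 * η) * w) := by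
        apply Real.rpow_le_rpow_of_exponent_le (by norm_num)
        apply mul_le_mul_of_nonneg_right _ (Nat.cast_nonneg w)
        linarith
      have h3 : 18 * C2 * C5 * (2 : ℝ) ^ (1 + η) * G * (2 : ℝ) ^ ((1 + η) * w) / g ^ 2 ≤
          18 * C2 * C5 * (2 : ℝ) ^ (1 + η) * G * (2 : ℝ) ^ ((1 + 2 * η) * w) / g ^ 2 := by
        apply div_le_div_of_nonneg_right _ (by positivity)
        exact mul_le_mul_of_nonneg_left h2 (by positivity)
      have h4 : K * G * (2 : ℝ) ^ ((1 + 2 * η) * w) / g ^ 2 =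
          18 * C2 * C5 * (2 : ℝ) ^ (1 + η) * G * (2 : ℝ) ^ ((1 + 2 * η) * w) / g ^ 2 +
          C7 * C3 * (2 : ℝ) ^ (1 + η) * G * (2 : ℝ) ^ ((1 + 2 * η) * w) / g ^ 2 := by
        rw [hK]
        ring
      rw [h4]
      exact add_le_add (hc1.trans h3) hc2
    push_cast
    calc ((Z8_A b V y w g).card : ℝ) * g ≤ K * G * (2 : ℝ) ^ ((1 + 2 * η) * w) / g ^ 2 * g :=
          mul_le_mul_of_nonneg_right hcard hg0.le
      _ = K * G * (2 : ℝ) ^ ((1 + 2 * η) * w) * (1 / g) := by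
          field_simp
  have hst := Z8_step1 (y := y) hN1 hN2 hb hV
  have hst2 : ((((PR y w).filter (fun p => ∃ v : V4, v ≠ 0 ∧ InG p.1 p.2 v ∧ RV v = 0 ∧ nrm b v ≤ V)).card : ℕ) : ℝ) ≤
      ((∑ g ∈ Icc 1 ⌊G⌋₊, (Z8_A b V y w g).card * g : ℕ) : ℝ) := by
    exact_mod_cast hst
  rw [Nat.cast_sum] at hst2
  refine hst2.trans ((sum_le_sum hAg).trans ?_)
  rw [← mul_sum]
  have hlog : Real.log (⌊G⌋₊ : ℝ) ≤ w := by
    rcases Nat.eq_zero_or_pos ⌊G⌋₊ with h | h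
    · rw [h]
      simp
    · have h1 : ((⌊G⌋₊ : ℕ) : ℝ) ≤ 2 ^ w := (Nat.floor_le hG0.le).trans hV.le
      have h2 : (0 : ℝ) < ((⌊G⌋₊ : ℕ) : ℝ) := by exact_mod_cast h
      have h3 := Real.log_le_log h2 h1
      rw [Real.log_pow] at h3
      have h4 : (w : ℝ) * Real.log 2 ≤ w * 1 := mul_le_mul_of_nonneg_left hl21 (Nat.cast_nonneg w)
      linarith
  have hharm : ∑ g ∈ Icc 1 ⌊G⌋₊, (1 : ℝ) / g ≤ C4 * (2 : ℝ) ^ (η * w) := by
    have := Z8_harm ⌊G⌋₊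
    linarith
  have hexp : (2 : ℝ) ^ ((1 + ε) * w) = (2 : ℝ) ^ ((1 + 2 * η) * w) * (2 : ℝ) ^ (η * w) := by
    rw [← Real.rpow_add (by norm_num)]
    congr 1
    rw [hη]
    ring
  calc K * G * (2 : ℝ) ^ ((1 + 2 * η) * w) * ∑ g ∈ Icc 1 ⌊G⌋₊, (1 : ℝ) / g
      ≤ K * G * (2 : ℝ) ^ ((1 + 2 * η) * w) * (C4 * (2 : ℝ) ^ (η * w)) :=
        mul_le_mul_of_nonneg_left hharm (by positivity)
    _ = K * C4 * b ^ 5 * V * (2 : ℝ) ^ ((1 + ε) * w) := by
        rw [hexp, hG]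
        ring
    _ ≤ (K * C4 + 1) * b ^ 5 * V * (2 : ℝ) ^ ((1 + ε) * w) := by
        apply mul_le_mul_of_nonneg_right _ (by positivity)
        apply mul_le_mul_of_nonneg_right _ hV0.le
        apply mul_le_mul_of_nonneg_right _ (by positivity)
        linarith

end Pool.Agent.RL
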